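import Pool.Agent.H913R3.MH.Defs

open MeasureTheory Set Filter Topology
open scoped ENNReal

namespace H913R3.MH

lemma nrm_nonneg (t : ℝ) : 0 ≤ nrm t := abs_nonneg _

lemma nrm_le_one (t : ℝ) : nrm t ≤ 1 := by
  have := abs_sub_round t
  unfold nrm
  linarith

lemma nrm_le (t : ℝ) (p : ℤ) : nrm t ≤ |t - p| := by
  unfold nrm
  exact round_le t p

/-- gauge facts -/
lemma gauge_facts (D : ℕ) (hD : 1 ≤ D) (f : ℝ → ℝ) (hfpos : ∀ x, 0 < x → 0 < f x)
    (hA : ∃ s : ℝ, s < D ∧ ∃ C : ℝ, ∀ x y, 0 < x → x < y → f y ≤ C * (y / x) ^ s * f x) :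
    (∃ Cg : ℝ, 1 ≤ Cg ∧ ∀ x y, 0 < x → x ≤ y →
      (y ^ (1 - (D : ℤ)) * f y) / y ≤ Cg * ((x ^ (1 - (D : ℤ)) * f x) / x)) ∧
    (∀ B : ℝ, ∃ r > 0, ∀ x, 0 < x → x ≤ r → B * x ≤ x ^ (1 - (D : ℤ)) * f x) := by
  obtain ⟨s, hs, C, hC⟩ := hA
  have key : ∀ x : ℝ, 0 < x → (x ^ (1 - (D : ℤ)) * f x) / x = f x / x ^ D := by
    intro x hx
    rw [zpow_sub₀ hx.ne', zpow_one, zpow_natCast]
    field_simp
  have hCpos : 0 < C := by
    have h1 := hC 1 2 one_pos (by norm_num)
    have h2 := hfpos 2 (by norm_num)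
    have h3 := hfpos 1 one_pos
    have h4 : (0 : ℝ) < (2 / 1) ^ s := by positivity
    by_contra hcon
    push_neg at hcon
    have : C * (2 / 1) ^ s * f 1 ≤ 0 := by
      apply mul_nonpos_of_nonpos_of_nonneg _ h3.le
      exact mul_nonpos_of_nonpos_of_nonneg hcon h4.le
    linarith
  refine ⟨⟨max C 1, le_max_right _ _, ?_⟩, ?_⟩
  · intro x y hx hxy
    have hy : 0 < y := hx.trans_le hxy
    rw [key x hx, key y hy]
    rcases eq_or_lt_of_le hxy with h | h
    · subst h
      have : 0 ≤ f x / x ^ D := by have := hfpos x hx; positivity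
      nlinarith [le_max_right C 1]
    · have h1 := hC x y hx h
      have h2 : (y / x) ^ s ≤ (y / x) ^ (D : ℝ) := by
        apply Real.rpow_le_rpow_of_exponent_le _ hs.le
        rw [le_div_iff₀ hx]; linarith
      rw [Real.rpow_natCast] at h2
      have h3 : f y ≤ C * (y / x) ^ D * f x := by
        refine h1.trans ?_
        have := hfpos x hx
        gcongr
      have h4 : f y / y ^ D ≤ C * (f x / x ^ D) := by
        rw [div_le_iff₀ (by positivity)]
        calc f y ≤ C * (y / x) ^ D * f x := h3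
          _ = C * (f x / x ^ D) * y ^ D := by
            rw [div_pow]; field_simp
      refine h4.trans ?_
      have : 0 ≤ f x / x ^ D := by have := hfpos x hx; positivity
      exact mul_le_mul_of_nonneg_right (le_max_left _ _) this
  · intro B
    have hf1 := hfpos 1 one_pos
    have hDs : 0 < (D : ℝ) - s := by linarith
    set u : ℝ := f 1 / (C * (|B| + 1)) with hu
    have hupos : 0 < u := by positivity
    refine ⟨min (1 / 2) (u ^ (1 / ((D : ℝ) - s))), by positivity, ?_⟩
    intro x hx hxr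
    have hx1 : x < 1 := by
      have := hxr.trans (min_le_left _ _); linarith
    have hxu : x ≤ u ^ (1 / ((D : ℝ) - s)) := hxr.trans (min_le_right _ _)
    have h1 : x ^ ((D : ℝ) - s) ≤ u := by
      calc x ^ ((D : ℝ) - s) ≤ (u ^ (1 / ((D : ℝ) - s))) ^ ((D : ℝ) - s) := by
            apply Real.rpow_le_rpow hx.le hxu hDs.le
        _ = u := by
          rw [← Real.rpow_mul hupos.le]
          rw [one_div, inv_mul_cancel₀ hDs.ne', Real.rpow_one]
    have h2 := hC x 1 hx hx1
    -- f 1 ≤ C * (1/x)^s * f x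
    have h3 : (1 / x) ^ s * x ^ s = 1 := by
      rw [one_div, Real.inv_rpow hx.le, inv_mul_cancel₀ (by positivity)]
    have h4 : f 1 * x ^ s ≤ C * f x := by
      calc f 1 * x ^ s ≤ (C * (1 / x) ^ s * f x) * x ^ s := by gcongr
        _ = C * f x * ((1 / x) ^ s * x ^ s) := by ring
        _ = C * f x := by rw [h3, mul_one]
    have hxs : 0 < x ^ s := by positivity
    -- x^D = x^(D-s) * x^s
    have h5 : x ^ D = x ^ ((D : ℝ) - s) * x ^ s := by
      rw [← Real.rpow_add hx, sub_add_cancel, Real.rpow_natCast]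
    have h6 : (|B| + 1) * x ^ D ≤ f x := by
      have : (|B| + 1) * x ^ D ≤ (|B| + 1) * (u * x ^ s) := by
        rw [h5]; gcongr
      refine this.trans ?_
      have h7 : (|B| + 1) * (u * x ^ s) = (f 1 * x ^ s) / C := by
        rw [hu]; field_simp
      rw [h7, div_le_iff₀ hCpos]
      linarith
    have h8 : x ^ (1 - (D : ℤ)) * f x = x * (f x / x ^ D) := by
      rw [← key x hx]; field_simp
    rw [h8]
    have h9 : B ≤ f x / x ^ D := by
      rw [le_div_iff₀ (by positivity)]
      refine le_trans ?_ h6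
      have : B ≤ |B| + 1 := by linarith [le_abs_self B]
      have hxD : 0 ≤ x ^ D := by positivity
      exact mul_le_mul_of_nonneg_right this hxD
    calc B * x = x * B := mul_comm _ _
      _ ≤ _ := by gcongr

end H913R3.MH

namespace H913R3.MH

/-- the point of the torus with distinguished coordinate `t` and other coordinates `y` -/
noncomputable def glue {κ : Type*} [DecidableEq κ] (p0 : κ) (t : ℝ)
    (y : {p : κ // p ≠ p0} → ℝ) : EuclideanSpace ℝ κ :=
  WithLp.toLp 2 (fun p => if h : p = p0 then t else y ⟨p, h⟩)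

lemma glue_self {κ : Type*} [DecidableEq κ] (p0 : κ) (t : ℝ)
    (y : {p : κ // p ≠ p0} → ℝ) : glue p0 t y p0 = t := by
  simp [glue]

lemma glue_ne {κ : Type*} [DecidableEq κ] (p0 : κ) (t : ℝ)
    (y : {p : κ // p ≠ p0} → ℝ) (p : κ) (h : p ≠ p0) : glue p0 t y p = y ⟨p, h⟩ := by
  simp [glue, h]

/-- Markov/slicing: if for (a.e.) every `y` in the unit cube the line through `y` is not covered,
we get a contradiction -/
lemma slicing {κ : Type} [Fintype κ] [DecidableEq κ] (p0 : κ)
    (f g : ℝ → ℝ) (hf0 : ∀ x, 0 < x → 0 < f x)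
    (hfg : ∀ x, 0 < x → f x = x ^ (Fintype.card κ - 1) * g x) (hg0 : ∀ x, 0 < x → 0 < g x)
    (K : ℝ) (hK : 0 ≤ K) (S : Set (EuclideanSpace ℝ κ))
    (hS : hausdorff f S < ENNReal.ofReal K) (Good : ({p : κ // p ≠ p0} → ℝ) → Prop)
    (hGood : ∀ᵐ y : {p : κ // p ≠ p0} → ℝ, (∀ i, y i ∈ Icc (0 : ℝ) 1) → Good y)
    (r₀ : ℝ) (hr₀ : 0 < r₀) :
    ∃ (B : ℕ → Set (EuclideanSpace ℝ κ)) (y : {p : κ // p ≠ p0} → ℝ) (δ w : ℕ → ℝ),
      S ⊆ ⋃ i, B i ∧ (∀ i, y i ∈ Icc (0 : ℝ) 1) ∧ Good y ∧
      (∀ i, 0 < w i) ∧ Summable w ∧ ∑' i, w i < 2 ^ (Fintype.card κ) * K + 2 ∧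
      (∀ i, 0 ≤ δ i ∧ δ i ≤ r₀) ∧
      (∀ i, ∀ u, glue p0 u y ∈ B i → ∀ v, glue p0 v y ∈ B i → |u - v| ≤ δ i) ∧
      (∀ i, 0 < δ i → g (δ i) ≤ w i) := by
  classical
  have h1 : pre f r₀ S < ENNReal.ofReal K := by
    refine lt_of_le_of_lt ?_ hS
    exact le_iSup₂_of_le (f := fun (ρ : ℝ) (_ : 0 < ρ) => pre f ρ S) r₀ hr₀ le_rfl
  unfold pre at h1
  simp only [iInf_lt_iff] at h1
  obtain ⟨B, hSB, hB, hsum⟩ := h1
  -- centre points
  have hcen : ∀ i, ∃ c : {p : κ // p ≠ p0} → ℝ, ∀ t y, glue p0 t y ∈ B i →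
      ∀ p, |y p - c p| ≤ Metric.diam (B i) := by
    intro i
    by_cases hne : (B i).Nonempty
    · obtain ⟨b, hb⟩ := hne
      refine ⟨fun p => b p.1, fun t y hty p => ?_⟩
      have h2 : |(glue p0 t y - b) p.1| ≤ ‖glue p0 t y - b‖ := by
        have := PiLp.norm_apply_le (glue p0 t y - b) p.1
        simpa using this
      have h3 : ‖glue p0 t y - b‖ ≤ Metric.diam (B i) := by
        rw [← dist_eq_norm]
        exact Metric.dist_le_diam_of_mem (hB i).1 hty hb
      have h4 : (glue p0 t y - b) p.1 = y p - b p.1 := by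
        rw [PiLp.sub_apply, glue_ne p0 t y p.1 p.2]
      rw [h4] at h2
      exact h2.trans h3
    · refine ⟨0, fun t y hty => ?_⟩
      exact absurd ⟨_, hty⟩ hne
  choose c hc using hcen
  set Box : ℕ → Set ({p : κ // p ≠ p0} → ℝ) := fun i =>
    Set.pi univ (fun p => Icc (c i p - Metric.diam (B i)) (c i p + Metric.diam (B i))) with hBox
  set gt : ℕ → ℝ≥0∞ := fun i =>
    if Metric.diam (B i) = 0 then 0 else ENNReal.ofReal (g (Metric.diam (B i))) with hgt
  have hcard : Fintype.card {p : κ // p ≠ p0} = Fintype.card κ - 1 := by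
    rw [Fintype.card_subtype_compl]
    simp
  have hboxvol : ∀ i, volume (Box i) = ENNReal.ofReal (2 * Metric.diam (B i)) ^ (Fintype.card κ - 1) := by
    intro i
    rw [hBox]
    simp only []
    rw [volume_pi_pi]
    simp only [Real.volume_Icc]
    have : ∀ p : {p : κ // p ≠ p0}, ENNReal.ofReal (c i p + Metric.diam (B i) - (c i p - Metric.diam (B i)))
        = ENNReal.ofReal (2 * Metric.diam (B i)) := by
      intro p; congr 1; ring
    simp only [this, Finset.prod_const, Finset.card_univ, hcard]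
  have hboxmeas : ∀ i, MeasurableSet (Box i) := by
    intro i
    exact MeasurableSet.univ_pi (fun p => measurableSet_Icc)
  set F : ({p : κ // p ≠ p0} → ℝ) → ℝ≥0∞ := fun y => ∑' i, (Box i).indicator (fun _ => gt i) y with hF
  set cube : Set ({p : κ // p ≠ p0} → ℝ) := Set.pi univ (fun _ => Icc (0:ℝ) 1) with hcube
  have hcubevol : volume cube = 1 := by
    rw [hcube, volume_pi_pi]
    simp
  have hcubemeas : MeasurableSet cube := MeasurableSet.univ_pi (fun p => measurableSet_Icc)
  have hint : ∫⁻ y, F y ≤ 2 ^ (Fintype.card κ - 1) * ENNReal.ofReal K := by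
    rw [hF, lintegral_tsum]
    · calc ∑' i, ∫⁻ y, (Box i).indicator (fun _ => gt i) y
          = ∑' i, gt i * volume (Box i) := by
            congr 1; ext i
            rw [lintegral_indicator (hboxmeas i)]
            simp
        _ ≤ ∑' i, 2 ^ (Fintype.card κ - 1) *
              (if Metric.diam (B i) = 0 then 0 else ENNReal.ofReal (f (Metric.diam (B i)))) := by
            apply ENNReal.tsum_le_tsum
            intro i
            rw [hboxvol i, hgt]
            by_cases h0 : Metric.diam (B i) = 0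
            · simp [h0]
            · have hpos : 0 < Metric.diam (B i) := lt_of_le_of_ne Metric.diam_nonneg (Ne.symm h0)
              simp only [h0, if_false]
              have e1 : ENNReal.ofReal (Metric.diam (B i) ^ (Fintype.card κ - 1) * g (Metric.diam (B i)))
                  = ENNReal.ofReal (Metric.diam (B i)) ^ (Fintype.card κ - 1) *
                    ENNReal.ofReal (g (Metric.diam (B i))) := by
                rw [ENNReal.ofReal_mul (by positivity), ENNReal.ofReal_pow hpos.le]
              have e2 : ENNReal.ofReal (2 * Metric.diam (B i)) = 2 * ENNReal.ofReal (Metric.diam (B i)) := by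
                rw [ENNReal.ofReal_mul (by norm_num)]; simp
              rw [hfg _ hpos, e1, e2, mul_pow]
              apply le_of_eq
              ring
        _ = 2 ^ (Fintype.card κ - 1) * ∑' i,
              (if Metric.diam (B i) = 0 then 0 else ENNReal.ofReal (f (Metric.diam (B i)))) := by
            rw [ENNReal.tsum_mul_left]
        _ ≤ 2 ^ (Fintype.card κ - 1) * ENNReal.ofReal K := by gcongr
    · intro i
      exact (measurable_const.indicator (hboxmeas i)).aemeasurable
  -- a good point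
  have hex : ∃ y, y ∈ cube ∧ Good y ∧ F y < ENNReal.ofReal (2 ^ (Fintype.card κ) * K + 1) := by
    by_contra hcon
    push_neg at hcon
    have h5 : ENNReal.ofReal (2 ^ (Fintype.card κ) * K + 1) ≤ ∫⁻ y, F y := by
      calc ENNReal.ofReal (2 ^ (Fintype.card κ) * K + 1)
          = ∫⁻ y in cube, ENNReal.ofReal (2 ^ (Fintype.card κ) * K + 1) := by
            simp [hcubevol]
        _ ≤ ∫⁻ y in cube, F y := by
            apply lintegral_mono_ae
            rw [ae_restrict_iff' hcubemeas]
            filter_upwards [hGood] with y hy hyc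
            apply hcon y hyc
            apply hy
            intro i
            exact hyc i (mem_univ _)
        _ ≤ ∫⁻ y, F y := setLIntegral_le_lintegral _ _
    have h6 := h5.trans hint
    have h7 : (2 : ℝ≥0∞) ^ (Fintype.card κ - 1) * ENNReal.ofReal K
        = ENNReal.ofReal (2 ^ (Fintype.card κ - 1) * K) := by
      rw [ENNReal.ofReal_mul (by positivity), ENNReal.ofReal_pow (by norm_num)]
      simp
    rw [h7, ENNReal.ofReal_le_ofReal_iff (by positivity)] at h6
    have h8 : (2:ℝ) ^ (Fintype.card κ - 1) ≤ 2 ^ (Fintype.card κ) :=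
      pow_le_pow_right₀ (by norm_num) (Nat.sub_le _ _)
    nlinarith
  obtain ⟨y, hyc, hyG, hyF⟩ := hex
  have hFne : F y ≠ ⊤ := (hyF.trans ENNReal.ofReal_lt_top).ne
  refine ⟨B, y, fun i => if y ∈ Box i then Metric.diam (B i) else 0,
    fun i => ((Box i).indicator (fun _ => gt i) y).toReal + (1/2) ^ (i + 1), hSB,
    fun i => hyc i (mem_univ _), hyG, ?_, ?_, ?_, ?_, ?_, ?_⟩
  · intro i; positivity
  · apply Summable.add
    · exact ENNReal.summable_toReal hFne
    · have := (summable_geometric_two).mul_right (1/2 : ℝ)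
      simpa [pow_succ] using this
  · have hs1 : Summable fun i => ((Box i).indicator (fun _ => gt i) y).toReal :=
      ENNReal.summable_toReal hFne
    have hs2 : Summable fun i : ℕ => (1/2 : ℝ) ^ (i + 1) := by
      have := (summable_geometric_two).mul_right (1/2 : ℝ)
      simpa [pow_succ] using this
    have hs3 : ∑' i : ℕ, (1/2 : ℝ) ^ (i + 1) = 1 := by
      simp only [pow_succ]
      rw [tsum_mul_right, tsum_geometric_two]; norm_num
    rw [hs1.tsum_add hs2, hs3]
    have h9 : ∑' i, ((Box i).indicator (fun _ => gt i) y).toReal = (F y).toReal := by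
      rw [hF]
      simp only []
      rw [ENNReal.tsum_toReal_eq]
      intro i
      exact ne_top_of_le_ne_top hFne (ENNReal.le_tsum i)
    rw [h9]
    have h10 : (F y).toReal < 2 ^ (Fintype.card κ) * K + 1 := by
      rw [← ENNReal.lt_ofReal_iff_toReal_lt hFne]
      exact hyF
    linarith
  · intro i
    simp only []
    split_ifs
    · exact ⟨Metric.diam_nonneg, (hB i).2⟩
    · exact ⟨le_rfl, hr₀.le⟩
  · intro i u hu v hv
    have hyB : y ∈ Box i := by
      intro p _
      have := hc i u y hu p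
      rw [abs_le] at this
      constructor <;> linarith [this.1, this.2]
    simp only [hyB, if_true]
    have h11 : |(glue p0 u y - glue p0 v y) p0| ≤ ‖glue p0 u y - glue p0 v y‖ := by
      have := PiLp.norm_apply_le (glue p0 u y - glue p0 v y) p0
      simpa using this
    rw [PiLp.sub_apply, glue_self, glue_self] at h11
    refine h11.trans ?_
    rw [← dist_eq_norm]
    exact Metric.dist_le_diam_of_mem (hB i).1 hu hv
  · intro i hi
    simp only [] at hi ⊢
    by_cases hyB : y ∈ Box i
    · simp only [hyB, if_true] at hi ⊢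
      rw [Set.indicator_of_mem hyB]
      simp only [hgt, hi.ne', if_false]
      rw [ENNReal.toReal_ofReal (hg0 _ hi).le]
      have : (0:ℝ) < (1/2)^(i+1) := by positivity
      linarith
    · simp [hyB] at hi

end H913R3.MH
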