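import Pool.Agent.H913R3.MH.Stmts

open MeasureTheory Set Filter Topology
open scoped ENNReal

namespace H913R3.MH

/-- the `ρ`-premeasure: infimum of `∑ f (diam B_i)` over countable covers by bounded sets of
diameter at most `ρ`; a set of diameter `0` contributes `0`. -/
noncomputable def pre {E : Type*} [MetricSpace E] (f : ℝ → ℝ) (ρ : ℝ) (S : Set E) : ℝ≥0∞ :=
  ⨅ (B : ℕ → Set E) (_ : S ⊆ ⋃ i, B i)
    (_ : ∀ i, Bornology.IsBounded (B i) ∧ Metric.diam (B i) ≤ ρ),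
    ∑' i, if Metric.diam (B i) = 0 then 0 else ENNReal.ofReal (f (Metric.diam (B i)))

/-- the Hausdorff `f`-measure -/
noncomputable def hausdorff {E : Type*} [MetricSpace E] (f : ℝ → ℝ) (S : Set E) : ℝ≥0∞ :=
  ⨆ (ρ : ℝ) (_ : 0 < ρ), pre f ρ S

/-- The multiplicatively approximable set `W_{Ψ,θ} ⊆ [0,1]^{md}`; the point `x^{(i)}` is
`(X (i,1), ..., X (i,m))`. -/
def W (m d : ℕ) (θ : Fin d → ℝ) (Ψ : (Fin m → ℤ) → ℝ) :
    Set (EuclideanSpace ℝ (Fin d × Fin m)) :=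
  {X | (∀ p, X p ∈ Icc (0 : ℝ) 1) ∧
    {q : Fin m → ℤ | q ≠ 0 ∧ ∏ i, nrm (∑ j, (q j : ℝ) * X (i, j) - θ i) < Ψ q}.Infinite}

end H913R3.MH
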