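import Pool.Agent.H913R3.MH.Main

open MeasureTheory Set Filter Topology
open scoped ENNReal

namespace H913R3.MH

theorem main_all (h1 : TaskOneDim) (h2 : TaskCount) (h3 : TaskBC) (h4 : TaskSeries)
    (m d : ℕ) (hm : 1 ≤ m) (hd : 1 ≤ d) (θ : Fin d → ℝ) (ψ : ℕ → ℝ) (hψ0 : ∀ n, 0 ≤ ψ n)
    (hψ : ∀ a b, 1 ≤ a → a ≤ b → ψ b ≤ ψ a) (f : ℝ → ℝ) (hfpos : ∀ x, 0 < x → 0 < f x)
    (hA : ∃ s : ℝ, s < (m : ℝ) * d ∧ ∃ C : ℝ, ∀ x y, 0 < x → x < y →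
      f y ≤ C * (y / x) ^ s * f x)
    (hg : ∀ x y, 0 < x → x < y →
      x ^ (1 - (m : ℤ) * d) * f x ≤ y ^ (1 - (m : ℤ) * d) * f y)
    (hdiv : ∑' q : {q : Fin m → ℤ // q ≠ 0},
      (if ψ (supN q.1) = 0 then 0 else
        ENNReal.ofReal ((supN q.1 : ℝ) ^ (m * d) *
          ψ (supN q.1) ^ (1 - (m : ℤ) * d) * f (ψ (supN q.1) / supN q.1))) = ⊤) :
    hausdorff f (W m d θ fun q => ψ (supN q)) = ⊤ := by
  obtain ⟨n, rfl⟩ : ∃ n, m = n + 1 := ⟨m - 1, by omega⟩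
  have hc : (((n + 1) * d : ℕ) : ℤ) = ((n + 1 : ℕ) : ℤ) * d := by push_cast; ring
  have hc2 : (((n + 1) * d : ℕ) : ℝ) = ((n + 1 : ℕ) : ℝ) * d := by push_cast; ring
  apply main_succ h1 h2 h3 h4 n d hd θ ψ hψ0 hψ f hfpos
  · rw [hc2]; exact hA
  · rw [hc]; exact hg
  · rw [hc]; exact hdiv

end H913R3.MH
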