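import Pool.Agent.H913R3.MH.Assembly

open MeasureTheory Set Filter Topology
open scoped ENNReal

namespace H913R3.MH

lemma supN_eq_of_max {m : ℕ} (q : Fin (m + 1) → ℤ) (h : ∀ j, |q j| ≤ q 0) :
    (supN q : ℤ) = q 0 := by
  have h0 : 0 ≤ q 0 := (abs_nonneg _).trans (h 0)
  unfold supN
  have h1 : (Finset.univ.sup fun j => (q j).natAbs) = (q 0).natAbs := by
    apply le_antisymm
    · apply Finset.sup_le
      intro j _
      have h2 := h j
      have h3 : ((q j).natAbs : ℤ) ≤ ((q 0).natAbs : ℤ) := by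
        rw [Int.natCast_natAbs, Int.natCast_natAbs, abs_of_nonneg h0]; exact h2
      exact_mod_cast h3
    · exact Finset.le_sup (f := fun j => (q j).natAbs) (Finset.mem_univ 0)
  rw [h1, Int.natCast_natAbs, abs_of_nonneg h0]

lemma supN_pos {m : ℕ} (q : Fin m → ℤ) (h : q ≠ 0) : 1 ≤ supN q := by
  obtain ⟨j, hj⟩ := Function.ne_iff.mp h
  have h1 : (q j).natAbs ≤ supN q := Finset.le_sup (f := fun j => (q j).natAbs) (Finset.mem_univ j)
  have h2 : 1 ≤ (q j).natAbs := Nat.one_le_iff_ne_zero.mpr (Int.natAbs_ne_zero.mpr hj)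
  omega

/-- nonsummability after capping the radii -/
lemma cap_not_summable (g : ℝ → ℝ) (hg0 : ∀ x, 0 < x → 0 < g x)
    (hgB : ∀ B : ℝ, ∃ r > 0, ∀ x, 0 < x → x ≤ r → B * x ≤ g x)
    (M u : ℕ → ℝ) (hM : ∀ k, 0 < M k) (hMt : Tendsto M atTop atTop) (hu : ∀ k, 0 < u k)
    (h : ¬ Summable fun k => M k * g (u k)) :
    ¬ Summable fun k => M k * g (min (u k) (1 / (4 * M k))) := by
  intro hs
  apply h
  have h0 := hs.tendsto_atTop_zero
  obtain ⟨r, hr, hrB⟩ := hgB 4
  have hev1 : ∀ᶠ k in atTop, M k * g (min (u k) (1 / (4 * M k))) < 1 := h0.eventually_lt_const (by norm_num)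
  have hev2 : ∀ᶠ k in atTop, 1 / (4 * M k) ≤ r := by
    filter_upwards [hMt.eventually_ge_atTop (1 / (4 * r))] with k hk
    have hMk := hM k
    rw [div_le_iff₀ (by positivity)] at hk ⊢
    linarith
  have hev : ∀ᶠ k in atTop, M k * g (min (u k) (1 / (4 * M k))) = M k * g (u k) := by
    filter_upwards [hev1, hev2] with k h1 h2
    by_cases hle : u k ≤ 1 / (4 * M k)
    · rw [min_eq_left hle]
    · push_neg at hle
      rw [min_eq_right hle.le] at h1
      exfalso
      have h3 := hrB (1 / (4 * M k)) (by have := hM k; positivity) h2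
      have h4 : 1 ≤ M k * g (1 / (4 * M k)) := by
        calc (1:ℝ) = M k * (4 * (1 / (4 * M k))) := by
              have := (hM k).ne'; field_simp
          _ ≤ _ := by have := hM k; gcongr
      linarith
  exact (summable_congr_atTop hev).mp hs

/-- the proposition in the case `m + 1` -/
theorem main_succ (h1 : TaskOneDim) (h2 : TaskCount) (h3 : TaskBC) (h4 : TaskSeries)
    (m d : ℕ) (hd : 1 ≤ d) (θ : Fin d → ℝ) (ψ : ℕ → ℝ) (hψ0 : ∀ n, 0 ≤ ψ n)
    (hψ : ∀ a b, 1 ≤ a → a ≤ b → ψ b ≤ ψ a) (f : ℝ → ℝ) (hfpos : ∀ x, 0 < x → 0 < f x)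
    (hA : ∃ s : ℝ, s < ((m + 1) * d : ℕ) ∧ ∃ C : ℝ, ∀ x y, 0 < x → x < y →
      f y ≤ C * (y / x) ^ s * f x)
    (hg : ∀ x y, 0 < x → x < y →
      x ^ (1 - (((m + 1) * d : ℕ) : ℤ)) * f x ≤ y ^ (1 - (((m + 1) * d : ℕ) : ℤ)) * f y)
    (hdiv : ∑' q : {q : Fin (m + 1) → ℤ // q ≠ 0},
      (if ψ (supN q.1) = 0 then 0 else
        ENNReal.ofReal ((supN q.1 : ℝ) ^ ((m + 1) * d) *
          ψ (supN q.1) ^ (1 - (((m + 1) * d : ℕ) : ℤ)) * f (ψ (supN q.1) / supN q.1))) = ⊤) :
    hausdorff f (W (m + 1) d θ fun q => ψ (supN q)) = ⊤ := by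
  classical
  set D : ℕ := (m + 1) * d with hDdef
  have hD : 1 ≤ D := Nat.mul_pos (Nat.succ_pos m) hd
  obtain ⟨⟨Cg, hCg1, hCg⟩, hgB⟩ := gauge_facts D hD f hfpos hA
  set g : ℝ → ℝ := fun x => x ^ (1 - (D : ℤ)) * f x with hgdef
  have hg0 : ∀ x, 0 < x → 0 < g x := by
    intro x hx
    have := hfpos x hx
    simp only [hgdef]; positivity
  have hgmono : ∀ x y, 0 < x → x ≤ y → g x ≤ g y := by
    intro x y hx hxy
    rcases eq_or_lt_of_le hxy with h | h
    · rw [h]
    · exact hg x y hx h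
  -- psi is positive
  have hψpos : ∀ n, 0 < ψ n ∨ n = 0 := by
    intro n
    by_cases hn : n = 0
    · right; exact hn
    left
    by_contra hcon
    have hz : ψ n = 0 := le_antisymm (not_lt.mp hcon) (hψ0 n)
    have hzz : ∀ b, n ≤ b → ψ b = 0 := fun b hb =>
      le_antisymm ((hψ n b (Nat.one_le_iff_ne_zero.mpr hn) hb).trans hz.le) (hψ0 b)
    -- only finitely many nonzero terms
    have hfin : Set.Finite {q : {q : Fin (m + 1) → ℤ // q ≠ 0} | supN q.1 < n} := by
      have hfin2 : Set.Finite {q : Fin (m + 1) → ℤ | supN q < n} := by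
        apply Set.Finite.subset (Set.Finite.pi' (t := fun _ : Fin (m+1) => Icc (-(n:ℤ)) n)
          (fun _ => Set.finite_Icc _ _))
        intro q hq j
        have h5 : (q j).natAbs ≤ supN q := Finset.le_sup (f := fun j => (q j).natAbs) (Finset.mem_univ j)
        have h6 : (q j).natAbs < n := lt_of_le_of_lt h5 hq
        constructor <;> omega
      exact hfin2.preimage Subtype.val_injective.injOn
    have hne : (∑' q : {q : Fin (m + 1) → ℤ // q ≠ 0},
      (if ψ (supN q.1) = 0 then 0 else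
        ENNReal.ofReal ((supN q.1 : ℝ) ^ D *
          ψ (supN q.1) ^ (1 - (D : ℤ)) * f (ψ (supN q.1) / supN q.1)))) ≠ ⊤ := by
      rw [tsum_eq_sum (s := hfin.toFinset)]
      · apply ENNReal.sum_ne_top.mpr
        intro q _
        split_ifs
        · simp
        · exact ENNReal.ofReal_ne_top
      · intro q hq
        simp only [Set.Finite.mem_toFinset, mem_setOf_eq, not_lt] at hq
        rw [if_pos (hzz _ hq)]
    exact hne hdiv
  have hψp : ∀ n, 1 ≤ n → 0 < ψ n := fun n hn => (hψpos n).resolve_right (by omega)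
  -- the series in terms of G
  set G : ℕ → ℝ := fun n => g (ψ n / n) with hG
  have hG0 : ∀ n, 1 ≤ n → 0 ≤ G n := by
    intro n hn
    have h5 : (0 : ℝ) < n := by exact_mod_cast hn
    exact (hg0 _ (div_pos (hψp n hn) h5)).le
  have hGmono : ∀ a b, 1 ≤ a → a ≤ b → G b ≤ G a := by
    intro a b ha hab
    have ha' : (0 : ℝ) < a := by exact_mod_cast ha
    have hb' : (0 : ℝ) < b := by exact_mod_cast (lt_of_lt_of_le ha hab)
    apply hgmono _ _ (div_pos (hψp b (ha.trans hab)) hb')
    have : (a : ℝ) ≤ b := by exact_mod_cast hab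
    have h6 := hψ a b ha hab
    have h7 := hψ0 a
    gcongr
  have hdiv2 : ∑' q : {q : Fin (m + 1) → ℤ // q ≠ 0},
      ENNReal.ofReal ((supN q.1 : ℝ) * G (supN q.1)) = ⊤ := by
    rw [← hdiv]
    congr 1
    ext q
    congr 1
    have hq := supN_pos q.1 q.2
    have hn : (0 : ℝ) < (supN q.1 : ℝ) := by exact_mod_cast hq
    have hp := hψp _ hq
    rw [if_neg hp.ne']
    congr 1
    simp only [hG, hgdef]
    generalize (supN q.1 : ℝ) = N at *
    generalize ψ (supN q.1) = P at *
    rw [div_zpow, zpow_sub₀ hp.ne', zpow_sub₀ hn.ne', zpow_one, zpow_one, zpow_natCast, zpow_natCast]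
    field_simp
  obtain ⟨δ, hδ, R, hR, Q, hcount⟩ := h2 m
  have hser := h4 m R 1025 G hR (by norm_num) hG0 hGmono hdiv2
  -- main argument by contradiction
  by_contra hne
  have hlt : hausdorff f (W (m + 1) d θ fun q => ψ (supN q)) < ⊤ := lt_top_iff_ne_top.mpr hne
  obtain ⟨K, hK, hSK⟩ : ∃ K : ℝ, 0 ≤ K ∧
      hausdorff f (W (m + 1) d θ fun q => ψ (supN q)) < ENNReal.ofReal K := by
    refine ⟨(hausdorff f (W (m + 1) d θ fun q => ψ (supN q))).toReal + 1, by positivity, ?_⟩
    rw [ENNReal.lt_ofReal_iff_toReal_lt hne]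
    linarith
  set i0 : Fin d := ⟨0, hd⟩ with hi0
  set p0 : Fin d × Fin (m + 1) := (i0, 0) with hp0
  have hcardκ : Fintype.card (Fin d × Fin (m + 1)) = D := by
    rw [Fintype.card_prod, Fintype.card_fin, Fintype.card_fin, hDdef]; ring
  set K3 : ℝ := 2 ^ (Fintype.card (Fin d × Fin (m + 1))) * K + 2 with hK3
  have hK3pos : 0 < K3 := by positivity
  obtain ⟨r₀, hr₀, hmain⟩ := h1 g Cg hCg1 hg0 hgmono hCg hgB (1 / 16) 1 1025 (by norm_num)
    (by norm_num) (by norm_num) (by norm_num) K3 hK3pos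
  set e : Fin m → {p : Fin d × Fin (m + 1) // p ≠ p0} := fun j => ⟨(i0, j.succ), by
    intro h
    have := congrArg Prod.snd h
    exact Fin.succ_ne_zero j this⟩ with he
  have heinj : Function.Injective e := by
    intro a b hab
    have := congrArg (fun z => z.1.2) hab
    simpa [he] using this
  have hBC := h3 {p : Fin d × Fin (m + 1) // p ≠ p0} m e heinj δ 1025 hδ (by norm_num)
  obtain ⟨B, y, δ', w, hcover, hycube, hyBd, hw0, hwsum, hwlt, hδ', hEδ, hgw⟩ :=
    slicing p0 f g hfpos (by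
      intro x hx
      simp only [hgdef]
      rw [hcardκ, ← mul_assoc, ← zpow_natCast, ← zpow_add₀ hx.ne']
      have : ((D - 1 : ℕ) : ℤ) + (1 - (D : ℤ)) = 0 := by omega
      rw [this, zpow_zero, one_mul]) hg0 K hK _ hSK
      (fun y => ∀ᶠ k : ℕ in atTop, Bd m (m + 1) (1025 ^ k) δ (fun j => y (e j))) hBC r₀ hr₀
  have hL1 : ∀ k : ℕ, 1 ≤ (1025 : ℕ) ^ k := fun k => Nat.one_le_pow _ _ (by norm_num)
  choose P hPsep hPform hPcount using fun k : ℕ => hcount (θ i0) (fun j => y (e j)) (1025 ^ k) (hL1 k)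
  set M : ℕ → ℝ := fun k => ((1025 : ℝ) ^ k) ^ (m + 2) with hM
  have hMpos : ∀ k, 0 < M k := fun k => by simp only [hM]; positivity
  have hMge : ∀ k, (1025 : ℝ) ^ k ≤ M k := by
    intro k
    simp only [hM]
    exact le_self_pow₀ (one_le_pow₀ (by norm_num)) (by omega)
  have hMt : Tendsto M atTop atTop :=
    tendsto_atTop_mono hMge (tendsto_pow_atTop_atTop_of_one_lt (by norm_num))
  have hMcast : ∀ k, (((1025 ^ k : ℕ) : ℝ)) ^ (m + 2) = M k := by
    intro k; simp [hM]
  set u : ℕ → ℝ := fun k => ψ (3 * R * 1025 ^ k) / ((3 * R * 1025 ^ k : ℕ) : ℝ) with hu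
  have hidx : ∀ k, 1 ≤ 3 * R * 1025 ^ k := by
    intro k
    have := hL1 k
    have h5 : 1 ≤ 3 * R := by omega
    exact Nat.one_le_iff_ne_zero.mpr (by positivity)
  have hupos : ∀ k, 0 < u k := by
    intro k
    simp only [hu]
    have h5 : (0 : ℝ) < ((3 * R * 1025 ^ k : ℕ) : ℝ) := by exact_mod_cast hidx k
    exact div_pos (hψp _ (hidx k)) h5
  set ρ : ℕ → ℝ := fun k => min (u k) (1 / (4 * M k)) with hρ
  have hns : ¬ Summable fun k => M k * g (ρ k) := by
    apply cap_not_summable g hg0 hgB M u hMpos hMt hupos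
    intro hs
    apply hser
    simpa [hM, hG, hu] using hs
  obtain ⟨t, ht01, htE, htk⟩ := hmain P M ρ hMpos (by
      intro k
      simp only [hM]
      have h5 : (1025 : ℝ) ≤ 1025 ^ (m + 2) := le_self_pow₀ (by norm_num) (by omega)
      calc (1025 : ℝ) * ((1025 : ℝ) ^ k) ^ (m + 2) ≤ 1025 ^ (m + 2) * ((1025 : ℝ) ^ k) ^ (m + 2) := by gcongr
        _ = ((1025 : ℝ) ^ (k + 1)) ^ (m + 2) := by
          rw [← mul_pow, pow_succ (1025 : ℝ) k, mul_comm])
    (by
      intro k
      simp only [hρ]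
      have := hupos k
      have := hMpos k
      positivity)
    (by
      intro k
      have h5 : ρ k ≤ 1 / (4 * M k) := min_le_right _ _
      have h6 := hMpos k
      calc ρ k * M k ≤ 1 / (4 * M k) * M k := by gcongr
        _ = 1 / 4 := by field_simp)
    (by
      intro k x hx x' hx' hne'
      rw [← hMcast k]
      exact hPsep k x hx x' hx' hne')
    (by
      intro a b ha hab hb
      have hpos : 0 < (b - a) ^ 2 := by have : 0 < b - a := by linarith
                                        positivity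
      have h5 : ∀ᶠ k : ℕ in atTop, Q / (b - a) ^ 2 ≤ (1025 : ℝ) ^ k :=
        (tendsto_pow_atTop_atTop_of_one_lt (by norm_num)).eventually_ge_atTop _
      obtain ⟨k₀, hk₀⟩ := eventually_atTop.mp (h5.and hyBd)
      refine ⟨k₀, fun k hk => ?_⟩
      obtain ⟨h6, h7⟩ := hk₀ k hk
      have h8 : Q ≤ ((1025 ^ k : ℕ) : ℝ) * (b - a) ^ 2 := by
        rw [div_le_iff₀ hpos] at h6
        push_cast
        exact h6
      have h9 := hPcount k a b ha hab hb h8 h7
      rw [hMcast k] at h9
      linarith)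
    hns (fun i => {t | glue p0 t y ∈ B i}) δ' w hw0 hwsum hwlt hδ'
    (fun i u hu v hv => hEδ i u hu v hv) hgw
  -- the point lies in W
  have hXW : glue p0 t y ∈ W (m + 1) d θ fun q => ψ (supN q) := by
    refine ⟨?_, ?_⟩
    · intro p
      by_cases hp : p = p0
      · rw [hp, glue_self]; exact ht01
      · rw [glue_ne p0 t y p hp]; exact hycube _
    · intro hfin
      -- bound for supN on the finite set
      obtain ⟨N, hN⟩ := (hfin.image supN).bddAbove
      obtain ⟨k, hk, x, hx, htx⟩ := htk (N + 1)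
      obtain ⟨q, hq1, hq2, hq3, p, hq4⟩ := hPform k x hx
      have hsup := supN_eq_of_max q hq3
      have hRn : (1025 ^ k : ℕ) ≤ supN q := by
        have h5 : (R : ℤ) * (1025 ^ k : ℕ) ≤ supN q := by rw [hsup]; exact hq1
        have h6 : R * 1025 ^ k ≤ supN q := by exact_mod_cast h5
        calc 1025 ^ k = 1 * 1025 ^ k := by ring
          _ ≤ R * 1025 ^ k := by gcongr
          _ ≤ _ := h6
      have hk1 : k < 1025 ^ k := Nat.lt_pow_self (by norm_num)
      have hsupN1 : 1 ≤ supN q := (hL1 k).trans hRn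
      have hsup3 : supN q ≤ 3 * R * 1025 ^ k := by
        have h5 : (supN q : ℤ) ≤ 3 * R * (1025 ^ k : ℕ) := by rw [hsup]; exact_mod_cast hq2
        exact_mod_cast h5
      have hq0R : (q 0 : ℝ) = (supN q : ℝ) := by
        rw [← Int.cast_natCast, hsup]
      have hmem : q ∈ {q : Fin (m + 1) → ℤ | q ≠ 0 ∧
          ∏ i, nrm (∑ j, (q j : ℝ) * (glue p0 t y) (i, j) - θ i) < ψ (supN q)} := by
        refine ⟨?_, ?_⟩
        · intro h0
          rw [h0] at hsupN1
          simp [supN] at hsupN1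
        · have hprod : ∏ i, nrm (∑ j, (q j : ℝ) * (glue p0 t y) (i, j) - θ i) ≤
              nrm (∑ j, (q j : ℝ) * (glue p0 t y) (i0, j) - θ i0) := by
            rw [← Finset.mul_prod_erase Finset.univ _ (Finset.mem_univ i0)]
            have h5 : ∏ i ∈ Finset.univ.erase i0, nrm (∑ j, (q j : ℝ) * (glue p0 t y) (i, j) - θ i) ≤ 1 :=
              Finset.prod_le_one (fun i _ => nrm_nonneg _) (fun i _ => nrm_le_one _)
            have h6 := nrm_nonneg (∑ j, (q j : ℝ) * (glue p0 t y) (i0, j) - θ i0)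
            nlinarith
          refine lt_of_le_of_lt hprod ?_
          refine lt_of_le_of_lt (nrm_le _ p) ?_
          have hsumx : ∑ j, (q j : ℝ) * (glue p0 t y) (i0, j) =
              q 0 * t + ∑ j : Fin m, (q j.succ : ℝ) * y (e j) := by
            rw [Fin.sum_univ_succ]
            congr 1
          rw [hsumx]
          have h7 : (q 0 : ℝ) * t + ∑ j : Fin m, (q j.succ : ℝ) * y (e j) - θ i0 - p = q 0 * (t - x) := by
            have := hq4
            linarith [hq4, mul_sub (q 0 : ℝ) t x]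
          rw [h7, abs_mul, hq0R, abs_of_nonneg (by positivity)]
          have hposq : (0 : ℝ) < supN q := by exact_mod_cast hsupN1
          have hposI : (0 : ℝ) < ((3 * R * 1025 ^ k : ℕ) : ℝ) := by exact_mod_cast hidx k
          calc (supN q : ℝ) * |t - x| < supN q * ρ k := by gcongr
            _ ≤ ((3 * R * 1025 ^ k : ℕ) : ℝ) * u k := by
              have h8 : ρ k ≤ u k := min_le_left _ _
              have h9 : (supN q : ℝ) ≤ ((3 * R * 1025 ^ k : ℕ) : ℝ) := by exact_mod_cast hsup3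
              have h10 := hupos k
              gcongr
            _ = ψ (3 * R * 1025 ^ k) := by
              simp only [hu]
              rw [mul_div_cancel₀ _ hposI.ne']
            _ ≤ ψ (supN q) := hψ _ _ hsupN1 hsup3
      have h11 : supN q ≤ N := hN (Set.mem_image_of_mem _ hmem)
      omega
  obtain ⟨i, hi⟩ := mem_iUnion.mp (hcover hXW)
  exact htE i hi

end H913R3.MH
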