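import Mathlib

/-!
MP_3013d0_nt (divergence case, multiplicative inhomogeneous linear forms).
Definitions and task statements.  Each task is `def TaskX : Prop := ...`; prove
`theorem taskX : TaskX` in a file `Pool/Agent/<You>/MH_X.lean` importing this one.
-/

open MeasureTheory Set Filter Topology
open scoped ENNReal

namespace H913R3.MH

/-- distance to the nearest integer -/
noncomputable def nrm (t : ℝ) : ℝ := |t - round t|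

/-- sup norm of an integer vector, as a natural number -/
def supN {m : ℕ} (q : Fin m → ℤ) : ℕ := Finset.univ.sup fun j => (q j).natAbs

/-- `x` is not well approximable at scale `n`: every nonzero integer vector `q` with `|q| ≤ n`
has `|q·x - p| ≥ δ / n^e` for all integers `p`. -/
def Bd (m e n : ℕ) (δ : ℝ) (x : Fin m → ℝ) : Prop :=
  ∀ q : Fin m → ℤ, q ≠ 0 → (∀ j, |q j| ≤ (n : ℤ)) →
    ∀ p : ℤ, δ / (n : ℝ) ^ e ≤ |∑ j, (q j : ℝ) * x j - p|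

/-- Task 1 (greedy selection of disjoint balls from several levels). -/
def TaskGreedy : Prop :=
  ∀ (c σ A : ℝ), 0 < c → 0 < σ → 1 + 32 / (c * σ) ≤ A →
  ∀ (P : ℕ → Finset ℝ) (M R : ℕ → ℝ) (a b : ℝ) (k₀ : ℕ),
    a < b → (∀ k, 0 < M k) → (∀ k, A * M k ≤ M (k + 1)) → (∀ k, 0 < R k) →
    (∀ k, R k * M k ≤ σ / 4) →
    (∀ k, ∀ x ∈ P k, ∀ y ∈ P k, x ≠ y → σ / M k ≤ |x - y|) →
    (∀ k ≥ k₀, c * M k * (b - a) ≤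
      (((P k).filter (fun x => x ∈ Icc (a + (b - a) / 4) (b - (b - a) / 4))).card : ℝ)) →
    (¬ Summable fun k => M k * R k) →
    ∃ T : Finset (ℕ × ℝ),
      (∀ p ∈ T, k₀ ≤ p.1 ∧ p.2 ∈ P p.1 ∧ a ≤ p.2 - R p.1 ∧ p.2 + R p.1 ≤ b) ∧
      (∀ p ∈ T, ∀ p' ∈ T, p ≠ p' → R p.1 + R p'.1 < |p.2 - p'.2|) ∧
      c * σ / 16 * (b - a) ≤ ∑ p ∈ T, R p.1

/-- Task 2 (one step of the tree argument, from the greedy lemma; see the sketch). -/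
def TaskStep : Prop :=
  ∀ (g : ℝ → ℝ) (Cg : ℝ), 1 ≤ Cg → (∀ x, 0 < x → 0 < g x) →
    (∀ x y, 0 < x → x ≤ y → g x ≤ g y) →
    (∀ x y, 0 < x → x ≤ y → g y / y ≤ Cg * (g x / x)) →
    (∀ B : ℝ, ∃ r > 0, ∀ x, 0 < x → x ≤ r → B * x ≤ g x) →
  ∀ (c σ A K K' r₀ : ℝ), 0 < c → 0 < σ → c * σ ≤ 1 → 1 + 64 / (c * σ) ≤ A → 0 < K → 0 < r₀ →
    K' = 200 * Cg * K / (c * σ) →
  ∀ (P : ℕ → Finset ℝ) (M ρ : ℕ → ℝ),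
    (∀ k, 0 < M k) → (∀ k, A * M k ≤ M (k + 1)) → (∀ k, 0 < ρ k) → (∀ k, ρ k * M k ≤ σ / 4) →
    (∀ k, ∀ x ∈ P k, ∀ y ∈ P k, x ≠ y → σ / M k ≤ |x - y|) →
    (∀ a b, 0 ≤ a → a < b → b ≤ 1 → ∃ k₀, ∀ k ≥ k₀,
      c * M k * (b - a) ≤ (((P k).filter (fun x => x ∈ Icc a b)).card : ℝ)) →
    (¬ Summable fun k => M k * g (ρ k)) →
  ∀ (E : ℕ → Set ℝ) (δ w : ℕ → ℝ), (∀ i, 0 < w i) → Summable w →
    (∀ i, 0 ≤ δ i ∧ δ i ≤ r₀) → (∀ i, ∀ u ∈ E i, ∀ v ∈ E i, |u - v| ≤ δ i) →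
    (∀ i, 0 < δ i → g (δ i) ≤ w i) →
  ∀ (a b mass : ℝ) (k₀ : ℕ), 0 ≤ a → a < b → b ≤ 1 → 0 < mass →
    (∀ r, 0 < r → r ≤ r₀ → K' * mass * min (r / (b - a)) 1 ≤ Cg * g r) →
    (∑' i, Set.indicator {i | (E i ∩ Icc a b).Nonempty} w i < K * mass) →
    ∃ a' b' mass' : ℝ, a ≤ a' ∧ a' < b' ∧ b' ≤ b ∧ 0 < mass' ∧ mass' ≤ mass / 2 ∧
      (∀ r, 0 < r → r ≤ r₀ → K' * mass' * min (r / (b' - a')) 1 ≤ Cg * g r) ∧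
      (∑' i, Set.indicator {i | (E i ∩ Icc a' b').Nonempty} w i < K * mass') ∧
      ∃ k ≥ k₀, ∃ x ∈ P k, ∀ t ∈ Icc a' b', |t - x| < ρ k

/-- Task 3 (the one-dimensional theorem, from the step by recursion and nested intervals). -/
def TaskOneDim : Prop :=
  ∀ (g : ℝ → ℝ) (Cg : ℝ), 1 ≤ Cg → (∀ x, 0 < x → 0 < g x) →
    (∀ x y, 0 < x → x ≤ y → g x ≤ g y) →
    (∀ x y, 0 < x → x ≤ y → g y / y ≤ Cg * (g x / x)) →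
    (∀ B : ℝ, ∃ r > 0, ∀ x, 0 < x → x ≤ r → B * x ≤ g x) →
  ∀ (c σ A : ℝ), 0 < c → 0 < σ → c * σ ≤ 1 → 1 + 64 / (c * σ) ≤ A →
  ∀ K : ℝ, 0 < K → ∃ r₀ > 0,
  ∀ (P : ℕ → Finset ℝ) (M ρ : ℕ → ℝ),
    (∀ k, 0 < M k) → (∀ k, A * M k ≤ M (k + 1)) → (∀ k, 0 < ρ k) → (∀ k, ρ k * M k ≤ σ / 4) →
    (∀ k, ∀ x ∈ P k, ∀ y ∈ P k, x ≠ y → σ / M k ≤ |x - y|) →
    (∀ a b, 0 ≤ a → a < b → b ≤ 1 → ∃ k₀, ∀ k ≥ k₀,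
      c * M k * (b - a) ≤ (((P k).filter (fun x => x ∈ Icc a b)).card : ℝ)) →
    (¬ Summable fun k => M k * g (ρ k)) →
  ∀ (E : ℕ → Set ℝ) (δ w : ℕ → ℝ), (∀ i, 0 < w i) → Summable w → ∑' i, w i < K →
    (∀ i, 0 ≤ δ i ∧ δ i ≤ r₀) → (∀ i, ∀ u ∈ E i, ∀ v ∈ E i, |u - v| ≤ δ i) →
    (∀ i, 0 < δ i → g (δ i) ≤ w i) →
    ∃ t ∈ Icc (0 : ℝ) 1, (∀ i, t ∉ E i) ∧ ∀ k₀, ∃ k ≥ k₀, ∃ x ∈ P k, |t - x| < ρ k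

/-- Task 4 (covering lemma: a badly approximable point solves every inhomogeneous problem). -/
def TaskCover : Prop :=
  ∀ (m n : ℕ) (δ : ℝ), 1 ≤ n → 0 < δ → δ ≤ 1 →
  ∀ x : Fin m → ℝ, Bd m m n δ x →
  ∀ R : ℕ, 6 / δ ≤ R → ∀ τ : ℝ,
    ∃ q : Fin m → ℤ, (∀ j, |q j| ≤ (R : ℤ) * n) ∧
      ∃ p : ℤ, |∑ j, (q j : ℝ) * x j - p - τ| ≤ R * (δ / (n : ℝ) ^ m)

/-- Task 5 (most points of an interval on a line are good at scale `n`). -/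
def TaskLocal : Prop :=
  ∀ m : ℕ, ∃ δ > (0 : ℝ), δ ≤ 1 ∧ ∃ Q : ℝ, ∀ (y : Fin m → ℝ) (n : ℕ) (a b : ℝ),
    1 ≤ n → a < b → b - a ≤ 1 → Q ≤ n * (b - a) ^ 2 → Bd m (m + 1) n δ y →
    volume {t : ℝ | t ∈ Icc a b ∧ ¬ Bd (m + 1) (m + 1) n δ (Fin.cons t y)} ≤
      ENNReal.ofReal ((b - a) / 2)

/-- Task 6 (separated point sets; from Tasks 4 and 5). -/
def TaskCount : Prop :=
  ∀ m : ℕ, ∃ δ > (0 : ℝ), ∃ R : ℕ, 1 ≤ R ∧ ∃ Q : ℝ, ∀ (θ : ℝ) (y : Fin m → ℝ) (n : ℕ), 1 ≤ n →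
   ∃ P : Finset ℝ,
     (∀ x ∈ P, ∀ x' ∈ P, x ≠ x' → 1 / (n : ℝ) ^ (m + 2) ≤ |x - x'|) ∧
     (∀ z ∈ P, ∃ q : Fin (m + 1) → ℤ, (R : ℤ) * n ≤ q 0 ∧ q 0 ≤ 3 * R * n ∧
        (∀ j, |q j| ≤ q 0) ∧
        ∃ p : ℤ, (q 0 : ℝ) * z = p + θ - ∑ j : Fin m, (q j.succ : ℝ) * y j) ∧
     (∀ a b, 0 ≤ a → a < b → b ≤ 1 → Q ≤ n * (b - a) ^ 2 → Bd m (m + 1) n δ y →
        (n : ℝ) ^ (m + 2) * (b - a) / 16 ≤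
          ((P.filter (fun x => x ∈ Icc a b)).card : ℝ))

/-- Task 7 (Borel–Cantelli). -/
def TaskBC : Prop :=
  ∀ (ι : Type) [Fintype ι] (m : ℕ) (e : Fin m → ι), Function.Injective e →
  ∀ (δ : ℝ) (L : ℕ), 0 < δ → 2 ≤ L →
    ∀ᵐ y : ι → ℝ, (∀ i, y i ∈ Icc (0 : ℝ) 1) →
      ∀ᶠ k : ℕ in atTop, Bd m (m + 1) (L ^ k) δ (fun j => y (e j))

/-- Task 8 (condensation of the series). -/
def TaskSeries : Prop :=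
  ∀ (m R L : ℕ) (G : ℕ → ℝ), 1 ≤ R → 2 ≤ L → (∀ n, 1 ≤ n → 0 ≤ G n) →
    (∀ a b, 1 ≤ a → a ≤ b → G b ≤ G a) →
    (∑' q : {q : Fin (m + 1) → ℤ // q ≠ 0},
      ENNReal.ofReal ((supN q.1 : ℝ) * G (supN q.1)) = ⊤) →
    ¬ Summable (fun k : ℕ => ((L : ℝ) ^ k) ^ (m + 2) * G (3 * R * L ^ k))

end H913R3.MH
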